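import Mathlib
import Pool.Agent.Helper70.IdemDefs

/-!
Families of equivalence relations in which any two different points are related by exactly one
member: the idempotent binary maps preserving such a family.
-/

namespace Pool.Agent.Helper96.Idem

open Pool.Agent.Helper70.IdemDefs

universe u

variable {E : Type u}

/-- Unary maps preserving every member of `F`. -/
def Dil (F : Set (Setoid E)) (δ : E → E) : Prop :=
  ∀ θ ∈ F, ∀ x y, θ x y → θ (δ x) (δ y)

/-- Every two different points are related by exactly one member, and no member is total. -/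
structure LinSp (F : Set (Setoid E)) : Prop where
  ex : ∀ x y, x ≠ y → ∃ θ ∈ F, θ x y
  uq : ∀ x y, x ≠ y → ∀ θ ∈ F, ∀ φ ∈ F, θ x y → φ x y → θ = φ
  off : ∀ θ ∈ F, ∀ x, ∃ z, ¬ θ x z

variable {F : Set (Setoid E)}

theorem LinSp.eq_of (h : LinSp F) {x y : E} {θ φ : Setoid E} (hθ : θ ∈ F) (hφ : φ ∈ F)
    (hne : θ ≠ φ) (h1 : θ x y) (h2 : φ x y) : x = y := by
  by_contra hxy
  exact hne (h.uq x y hxy θ hθ φ hφ h1 h2)

theorem Dil.id' : Dil F (fun x => x) := fun _ _ _ _ h => h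

theorem Dil.const (c : E) : Dil F (fun _ => c) := fun θ _ _ _ _ => θ.refl c

/-- The auxiliary step: two dilatations that agree at `x` and `y` agree off the line `xy`. -/
theorem LinSp.agree_off (h : LinSp F) {δ δ' : E → E} (hd : Dil F δ) (hd' : Dil F δ')
    {x y z : E} (hx : δ x = δ' x) (hy : δ y = δ' y) {θ : Setoid E} (hθ : θ ∈ F)
    (hxy : x ≠ y) (hθxy : θ x y) (hz : ¬ θ x z) : δ z = δ' z := by
  have hxz : x ≠ z := by rintro rfl; exact hz (θ.refl x)
  have hyz : y ≠ z := by rintro rfl; exact hz hθxy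
  obtain ⟨α, hα, hαx⟩ := h.ex x z hxz
  obtain ⟨β, hβ, hβy⟩ := h.ex y z hyz
  have hne : α ≠ β := by
    rintro rfl
    have h1 : α x y := α.trans hαx (α.symm hβy)
    have h2 := h.uq x y hxy α hα θ hθ h1 hθxy
    subst h2
    exact hz hαx
  apply h.eq_of hα hβ hne
  · have h1 := hd α hα _ _ hαx
    have h2 := hd' α hα _ _ hαx
    rw [← hx] at h2
    exact α.trans (α.symm h1) h2
  · have h1 := hd β hβ _ _ hβy
    have h2 := hd' β hβ _ _ hβy
    rw [← hy] at h2
    exact β.trans (β.symm h1) h2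

/-- Two dilatations that agree at two different points are equal. -/
theorem LinSp.agree (h : LinSp F) {δ δ' : E → E} (hd : Dil F δ) (hd' : Dil F δ')
    {x y : E} (hx : δ x = δ' x) (hy : δ y = δ' y) (hxy : x ≠ y) : δ = δ' := by
  obtain ⟨θ, hθ, hθxy⟩ := h.ex x y hxy
  funext z
  by_cases hz : θ x z
  · by_cases hxz : x = z
    · subst hxz; exact hx
    obtain ⟨w, hw⟩ := h.off θ hθ x
    have hww := h.agree_off hd hd' hx hy hθ hxy hθxy hw
    have hxw : x ≠ w := by rintro rfl; exact hw (θ.refl x)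
    obtain ⟨α, hα, hαx⟩ := h.ex x w hxw
    have hzα : ¬ α x z := by
      intro hc
      have := h.uq x z hxz α hα θ hθ hc hz
      subst this
      exact hw hαx
    exact h.agree_off hd hd' hx hww hα hxw hαx hzα
  · exact h.agree_off hd hd' hx hy hθ hxy hθxy hz

theorem LinSp.injective (h : LinSp F) {δ : E → E} (hd : Dil F δ) (hc : ¬ ∃ c, ∀ x, δ x = c) :
    Function.Injective δ := by
  intro x y hxy
  by_contra hne
  apply hc
  refine ⟨δ x, fun z => ?_⟩
  have := h.agree hd (Dil.const (F := F) (δ x)) (x := x) (y := y) rfl hxy.symm hne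
  exact congrFun this z

/-- The permutations that preserve every member of `F`. -/
def dilGroup (h : LinSp F) : Subgroup (Equiv.Perm E) where
  carrier := {σ | Dil F σ}
  one_mem' := fun _ _ _ _ h => h
  mul_mem' := fun {_ _} ha hb θ hθ x y hxy => ha θ hθ _ _ (hb θ hθ _ _ hxy)
  inv_mem' := by
    intro σ hσ θ hθ x y hxy
    by_cases hne : x = y
    · subst hne; exact θ.refl _
    have hne' : σ⁻¹ x ≠ σ⁻¹ y := fun hc => hne (by simpa using hc)
    obtain ⟨φ, hφ, hφxy⟩ := h.ex _ _ hne'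
    have h1 := hσ φ hφ _ _ hφxy
    have e1 : σ (σ⁻¹ x) = x := by simp
    have e2 : σ (σ⁻¹ y) = y := by simp
    rw [e1, e2] at h1
    have := h.uq x y hne φ hφ θ hθ h1 hxy
    subst this
    exact hφxy

/-- Permutations moving every point along one and the same member of `F`. -/
def Trans (h : LinSp F) (σ : Equiv.Perm E) : Prop :=
  σ ∈ dilGroup h ∧ ∃ θ ∈ F, ∀ z, θ z (σ z)

theorem trans_fix (h : LinSp F) {σ : Equiv.Perm E} (hσ : Trans h σ) {z : E} (hz : σ z = z) :
    σ = 1 := by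
  obtain ⟨hd, θ, hθ, hdir⟩ := hσ
  obtain ⟨w, hw⟩ := h.off θ hθ z
  have hzw : z ≠ w := by rintro rfl; exact hw (θ.refl z)
  obtain ⟨α, hα, hαx⟩ := h.ex z w hzw
  have h1 : α z (σ w) := by
    have := hd α hα _ _ hαx
    rwa [hz] at this
  have hne : α ≠ θ := by rintro rfl; exact hw hαx
  have h2 : w = σ w := h.eq_of hα hθ hne (α.trans (α.symm hαx) h1) (hdir w)
  have := h.agree hd (Dil.id' (F := F)) (x := z) (y := w) hz h2.symm hzw
  ext x
  exact congrFun this x

theorem trans_agree (h : LinSp F) {σ τ : Equiv.Perm E} (hσ : Trans h σ) (hτ : Trans h τ) {z : E}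
    (hz : σ z = τ z) : σ = τ := by
  by_cases hfix : σ z = z
  · rw [trans_fix h hσ hfix, trans_fix h hτ (hz ▸ hfix)]
  obtain ⟨hd, θ, hθ, hdir⟩ := hσ
  obtain ⟨hd', θ', hθ', hdir'⟩ := hτ
  have h0 : θ' z (σ z) := by rw [hz]; exact hdir' z
  have hθθ : θ = θ' := h.uq z (σ z) (Ne.symm hfix) θ hθ θ' hθ' (hdir z) h0
  subst hθθ
  obtain ⟨w, hw⟩ := h.off θ hθ z
  have hzw : z ≠ w := by rintro rfl; exact hw (θ.refl z)
  obtain ⟨α, hα, hαx⟩ := h.ex z w hzw
  have hne : α ≠ θ := by rintro rfl; exact hw hαx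
  have h1 := hd α hα _ _ hαx
  have h2 := hd' α hα _ _ hαx
  rw [← hz] at h2
  have h3 : σ w = τ w := h.eq_of hα hθ hne (α.trans (α.symm h1) h2)
    (θ.trans (θ.symm (hdir w)) (hdir' w))
  have := h.agree hd hd' (x := z) (y := w) hz h3 hzw
  ext x
  exact congrFun this x

theorem trans_one (h : LinSp F) [Nonempty E] [Nontrivial E] : Trans h 1 := by
  obtain ⟨x, y, hxy⟩ := exists_pair_ne E
  obtain ⟨θ, hθ, -⟩ := h.ex x y hxy
  exact ⟨(dilGroup h).one_mem, θ, hθ, fun z => θ.refl z⟩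

theorem trans_conj (h : LinSp F) {σ l : Equiv.Perm E} (hσ : Trans h σ) (hl : l ∈ dilGroup h) :
    Trans h (l * σ * l⁻¹) := by
  obtain ⟨hd, θ, hθ, hdir⟩ := hσ
  refine ⟨(dilGroup h).mul_mem ((dilGroup h).mul_mem hl hd) ((dilGroup h).inv_mem hl), θ, hθ, ?_⟩
  intro z
  have := hl θ hθ _ _ (hdir (l⁻¹ z))
  simpa using this

section Main

variable {f : E → E → E}

/-- If some row is constant then `f` is the first projection. -/
theorem row_const (h : LinSp F) [Nontrivial E] (hid : ∀ x, f x x = x)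
    (hp : ∀ θ ∈ F, Preserves f θ) {x₀ c : E} (hc : ∀ y, f x₀ y = c) : ∀ x y, f x y = x := by
  have hc' : c = x₀ := by rw [← hc x₀, hid]
  subst hc'
  have hrow : ∀ x, Dil F (f x) := fun x θ hθ y y' hy => hp θ hθ x x y y' (θ.refl x) hy
  have hcol : ∀ y, Dil F (fun x => f x y) := fun y θ hθ x x' hx => hp θ hθ x x' y y hx (θ.refl y)
  have h1 : ∀ y, y ≠ c → ∀ z, f z y = z := by
    intro y hy z
    have := h.agree (hcol y) (Dil.id' (F := F)) (x := c) (y := y) (hc y) (hid y) (Ne.symm hy)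
    exact congrFun this z
  obtain ⟨y, hy⟩ := exists_ne c
  obtain ⟨θ, hθ, hθy⟩ := h.ex c y (Ne.symm hy)
  obtain ⟨w, hw⟩ := h.off θ hθ c
  have hwc : w ≠ c := by rintro rfl; exact hw (θ.refl _)
  have hyw : y ≠ w := by rintro rfl; exact hw hθy
  intro x z
  have := h.agree (hrow x) (Dil.const (F := F) x) (x := y) (y := w) (h1 y hy x) (h1 w hwc x) hyw
  exact congrFun this z

theorem col_const (h : LinSp F) [Nontrivial E] (hid : ∀ x, f x x = x)
    (hp : ∀ θ ∈ F, Preserves f θ) {y₀ c : E} (hc : ∀ x, f x y₀ = c) : ∀ x y, f x y = y := by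
  have := row_const (f := fun x y => f y x) h hid
    (fun θ hθ x x' y y' hx hy => hp θ hθ y y' x x' hy hx) (x₀ := y₀) (c := c) hc
  intro x y
  exact this y x

variable [Finite E]

/-- The vector space structure produced by a map different from both projections. -/
theorem exists_structure (h : LinSp F) [Nontrivial E] (hid : ∀ x, f x x = x)
    (hp : ∀ θ ∈ F, Preserves f θ) (h1 : ¬ ∀ x y, f x y = x) (h2 : ¬ ∀ x y, f x y = y) :
    ∃ (_ : AddCommGroup E) (l : E →+ E), l ≠ 0 ∧ l ≠ AddMonoidHom.id E ∧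
      ∀ θ ∈ F, (∀ x y z, θ x y → θ (x + z) (y + z)) ∧ ∀ x y, θ x y → θ (l x) (l y) := by
  classical
  have hrow : ∀ x, Dil F (f x) := fun x θ hθ y y' hy => hp θ hθ x x y y' (θ.refl x) hy
  have hcol : ∀ y, Dil F (fun x => f x y) := fun y θ hθ x x' hx => hp θ hθ x x' y y hx (θ.refl y)
  have hri : ∀ x, Function.Injective (f x) := fun x =>
    h.injective (hrow x) (fun ⟨c, hc⟩ => h1 (row_const h hid hp hc))
  have hci : ∀ y, Function.Injective (fun x => f x y) := fun y =>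
    h.injective (hcol y) (fun ⟨c, hc⟩ => h2 (col_const h hid hp hc))
  let ρ : E → Equiv.Perm E := fun x => Equiv.ofBijective (f x) (Finite.injective_iff_bijective.1 (hri x))
  let κ : E → Equiv.Perm E := fun y => Equiv.ofBijective (fun x => f x y)
    (Finite.injective_iff_bijective.1 (hci y))
  have hρ : ∀ x y, ρ x y = f x y := fun _ _ => rfl
  have hκ : ∀ x y, κ y x = f x y := fun _ _ => rfl
  have hρD : ∀ x, ρ x ∈ dilGroup h := fun x => hrow x
  have hκD : ∀ y, κ y ∈ dilGroup h := fun y => hcol y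
  have hone := trans_one h
  have hτ : ∀ x y, Trans h (ρ x * (ρ y)⁻¹) := by
    intro x y
    by_cases hxy : x = y
    · subst hxy; rw [mul_inv_cancel]; exact hone
    obtain ⟨θ, hθ, hθxy⟩ := h.ex x y hxy
    refine ⟨(dilGroup h).mul_mem (hρD x) ((dilGroup h).inv_mem (hρD y)), θ, hθ, fun z => ?_⟩
    have e : f y ((ρ y)⁻¹ z) = z := by
      rw [← hρ]; simp
    have := hcol ((ρ y)⁻¹ z) θ hθ _ _ (θ.symm hθxy)
    simp only at this
    rw [e] at this
    exact this
  obtain ⟨o⟩ : Nonempty E := inferInstance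
  have hρo : ρ o o = o := hid o
  have hκo : κ o o = o := hid o
  have hρoi : (ρ o)⁻¹ o = o := by
    rw [Equiv.Perm.inv_eq_iff_eq]; exact hρo.symm
  have hκoi : (κ o)⁻¹ o = o := by
    rw [Equiv.Perm.inv_eq_iff_eq]; exact hκo.symm
  -- every translation is one of the `ρ x (ρ o)⁻¹`
  have hform : ∀ σ, Trans h σ → ∃ x, σ = ρ x * (ρ o)⁻¹ := by
    intro σ hσ
    refine ⟨(κ o)⁻¹ (σ o), trans_agree h hσ (hτ _ _) (z := o) ?_⟩
    rw [Equiv.Perm.mul_apply, hρoi, hρ, ← hκ]
    simp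
  have hdiv : ∀ σ τ, Trans h σ → Trans h τ → Trans h (σ * τ⁻¹) := by
    intro σ τ hσ hτ'
    obtain ⟨x, rfl⟩ := hform σ hσ
    obtain ⟨y, rfl⟩ := hform τ hτ'
    have : ρ x * (ρ o)⁻¹ * (ρ y * (ρ o)⁻¹)⁻¹ = ρ x * (ρ y)⁻¹ := by group
    rw [this]
    exact hτ x y
  let T : Subgroup (Equiv.Perm E) :=
    { carrier := {σ | Trans h σ}
      one_mem' := hone
      mul_mem' := by
        intro a b ha hb
        have h3 : Trans h b⁻¹ := by simpa using hdiv 1 b hone hb
        have := hdiv a b⁻¹ ha h3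
        rwa [inv_inv] at this
      inv_mem' := by
        intro a ha
        simpa using hdiv 1 a hone ha }
  have hT : ∀ σ, σ ∈ T ↔ Trans h σ := fun _ => Iff.rfl
  -- the decomposition
  have hdec : ∀ σ, Trans h σ →
      (κ o * σ * (κ o)⁻¹) * (ρ o * σ * (ρ o)⁻¹) = σ := by
    intro σ hσ
    have hm := trans_conj h hσ (hκD o)
    have hl := trans_conj h hσ (hρD o)
    refine trans_agree h (T.mul_mem (x := κ o * σ * (κ o)⁻¹) hm hl) hσ (z := o) ?_
    have e1 : κ o * σ * (κ o)⁻¹ = ρ (σ o) * (ρ o)⁻¹ := by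
      refine trans_agree h hm (hτ _ _) (z := o) ?_
      simp only [Equiv.Perm.mul_apply, hκoi, hρoi]
      rfl
    rw [e1]
    simp only [Equiv.Perm.mul_apply, hρoi]
    have e5 : (ρ o)⁻¹ (ρ o (σ o)) = σ o := by simp
    rw [e5, hρ, hid]
  have hcommT : ∀ a b : Equiv.Perm E, Trans h a → Trans h b → a * b = b * a := by
    intro a b ha hb
    -- a = m τ m⁻¹, b = l σ l⁻¹
    have hτ0 : Trans h ((κ o)⁻¹ * a * (κ o)⁻¹⁻¹) :=
      trans_conj h ha ((dilGroup h).inv_mem (hκD o))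
    have hσ0 : Trans h ((ρ o)⁻¹ * b * (ρ o)⁻¹⁻¹) :=
      trans_conj h hb ((dilGroup h).inv_mem (hρD o))
    set τ := (κ o)⁻¹ * a * (κ o)⁻¹⁻¹ with hτdef
    set σ := (ρ o)⁻¹ * b * (ρ o)⁻¹⁻¹ with hσdef
    have ea : a = κ o * τ * (κ o)⁻¹ := by rw [hτdef]; group
    have eb : b = ρ o * σ * (ρ o)⁻¹ := by rw [hσdef]; group
    have d1 := hdec σ hσ0
    have d2 := hdec τ hτ0
    have d3 := hdec (σ * τ) (T.mul_mem (x := σ) hσ0 hτ0)
    rw [← ea] at d2
    rw [← eb] at d1
    have e3 : κ o * (σ * τ) * (κ o)⁻¹ = (κ o * σ * (κ o)⁻¹) * a := by rw [ea]; group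
    have e4 : ρ o * (σ * τ) * (ρ o)⁻¹ = b * (ρ o * τ * (ρ o)⁻¹) := by rw [eb]; group
    rw [e3, e4] at d3
    -- M a b L = σ τ = M b a L
    have d4 : (κ o * σ * (κ o)⁻¹) * a * (b * (ρ o * τ * (ρ o)⁻¹)) =
        (κ o * σ * (κ o)⁻¹) * b * (a * (ρ o * τ * (ρ o)⁻¹)) := by
      rw [d3, d1, d2]
    have d5 : (κ o * σ * (κ o)⁻¹) * (a * b) * (ρ o * τ * (ρ o)⁻¹) =
        (κ o * σ * (κ o)⁻¹) * (b * a) * (ρ o * τ * (ρ o)⁻¹) := by
      simpa only [mul_assoc] using d4
    exact mul_left_cancel (mul_right_cancel d5)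
  let cg : CommGroup T :=
    { (inferInstance : Group T) with
      mul_comm := fun a b => Subtype.ext (hcommT a b a.2 b.2) }
  let e : T ≃ E := Equiv.ofBijective (fun σ => (σ : Equiv.Perm E) o) (by
    constructor
    · intro σ τ hστ
      exact Subtype.ext (trans_agree h σ.2 τ.2 hστ)
    · intro p
      refine ⟨⟨ρ ((κ o)⁻¹ p) * (ρ o)⁻¹, hτ _ _⟩, ?_⟩
      simp only [Equiv.Perm.mul_apply, hρoi]
      rw [hρ, ← hκ]; simp)
  have heo : ∀ σ : T, e σ = (σ : Equiv.Perm E) o := fun _ => rfl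
  let e' : E ≃ Additive T := e.symm.trans Additive.ofMul
  let A : AddCommGroup E := @Equiv.addCommGroup E (Additive T) e' (@Additive.addCommGroup T cg)
  have hadd : ∀ x y : E, x + y = (e.symm x : Equiv.Perm E) y := by
    intro x y
    have h3 : x + y = e (e.symm x * e.symm y) := rfl
    rw [h3, heo, Subgroup.coe_mul, Equiv.Perm.mul_apply, ← heo, Equiv.apply_symm_apply]
  have hl : ∀ x y : E, ρ o (x + y) = ρ o x + ρ o y := by
    intro x y
    have key : (e.symm (ρ o x) : Equiv.Perm E) = ρ o * (e.symm x : Equiv.Perm E) * (ρ o)⁻¹ := by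
      refine trans_agree h (e.symm (ρ o x)).2 (trans_conj h (e.symm x).2 (hρD o)) (z := o) ?_
      rw [← heo, Equiv.apply_symm_apply]
      simp only [Equiv.Perm.mul_apply, hρoi]
      rw [← heo, Equiv.apply_symm_apply]
    rw [hadd, hadd, key]
    have e5 : (ρ o)⁻¹ (ρ o y) = y := by simp
    simp only [Equiv.Perm.mul_apply, e5]
  refine ⟨A, AddMonoidHom.mk' (ρ o) hl, ?_, ?_, ?_⟩
  · intro h0
    apply h1
    refine row_const h hid hp (x₀ := o) (c := 0) (fun y => ?_)
    exact DFunLike.congr_fun h0 y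
  · intro h0
    obtain ⟨y, hy⟩ := exists_ne o
    have h3 : f o y = y := DFunLike.congr_fun h0 y
    apply hy
    apply (hci y).eq_iff.1
    show f y y = f o y
    rw [hid, h3]
  · intro θ hθ
    refine ⟨fun x y z hxy => ?_, fun x y hxy => hρD o θ hθ x y hxy⟩
    rw [add_comm x z, add_comm y z, hadd, hadd]
    exact (e.symm z).2.1 θ hθ x y hxy

end Main

end Pool.Agent.Helper96.Idem
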