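import Mathlib
import Pool.Agent.Helper96.Idem.Lin

/-!
Families of equivalence relations with the exchange property: the classification of property (P).
-/

namespace Pool.Agent.Helper96.Idem

open Pool.Agent.Helper70.IdemDefs

universe u

variable {E : Type u}

/-- The family has the exchange property: for two pairs of different points, if every member
relating the first pair relates the second pair, then every member relating the second pair
relates the first pair. -/
def Exchange (F : Set (Setoid E)) : Prop :=
  ∀ x y u v, x ≠ y → u ≠ v → (∀ θ ∈ F, θ x y → θ u v) → ∀ θ ∈ F, θ u v → θ x y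

/-- `E` is a vector space over a field with more than two elements, in such a way that each
member of `F` is the congruence modulo a subspace. -/
def LinearOverBigField (F : Set (Setoid E)) : Prop :=
  ∃ (K : Type u) (_ : Field K) (_ : AddCommGroup E) (_ : Module K E),
    (∃ a : K, a ≠ 0 ∧ a ≠ 1) ∧
      ∀ θ ∈ F, ∃ H : Submodule K E, ∀ x y, θ x y ↔ x - y ∈ H

variable {F : Set (Setoid E)}

/-- The least relation generated by a pair. -/
def line (F : Set (Setoid E)) (x y : E) : Setoid E where
  r u v := ∀ θ ∈ F, θ x y → θ u v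
  iseqv := ⟨fun u θ _ _ => θ.refl u, fun h θ hθ hxy => θ.symm (h θ hθ hxy),
    fun h1 h2 θ hθ hxy => θ.trans (h1 θ hθ hxy) (h2 θ hθ hxy)⟩

theorem line_rel {x y u v : E} : line F x y u v ↔ ∀ θ ∈ F, θ x y → θ u v := Iff.rfl

/-- The lines of the family. -/
def lines (F : Set (Setoid E)) : Set (Setoid E) := {φ | ∃ x y, x ≠ y ∧ φ = line F x y}

theorem line_self (x y : E) : line F x y x y := fun _ _ h => h

theorem line_le {x y u v : E} {θ : Setoid E} (hθ : θ ∈ F) (hxy : θ x y) (h : line F x y u v) :
    θ u v := h θ hθ hxy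

theorem line_eq (hF : Exchange F) {x y a b : E} (hxy : x ≠ y) (hab : a ≠ b)
    (h : line F x y a b) : line F x y = line F a b := by
  have h2 := hF x y a b hxy hab h
  ext u v
  constructor
  · intro h3 θ hθ hθab
    exact h3 θ hθ (h2 θ hθ hθab)
  · intro h3 θ hθ hθxy
    exact h3 θ hθ (h θ hθ hθxy)

theorem linSp_lines (hF : Exchange F) (hne : ∃ θ ∈ F, θ ≠ ⊥ ∧ θ ≠ ⊤) : LinSp (lines F) where
  ex := fun x y hxy => ⟨line F x y, ⟨x, y, hxy, rfl⟩, line_self x y⟩
  uq := by
    rintro a b hab _ ⟨x, y, hxy, rfl⟩ _ ⟨u, v, huv, rfl⟩ h1 h2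
    rw [line_eq hF hxy hab h1, line_eq hF huv hab h2]
  off := by
    rintro _ ⟨x, y, hxy, rfl⟩ p
    by_contra hcon
    push Not at hcon
    have hall : ∀ u v, line F x y u v := fun u v =>
      (line F x y).trans ((line F x y).symm (hcon u)) (hcon v)
    obtain ⟨θ, hθ, hbot, htop⟩ := hne
    have hab : ∃ a b, θ a b ∧ a ≠ b := by
      by_contra hc
      push Not at hc
      apply hbot
      ext a b
      constructor
      · intro h; exact hc a b h
      · intro h
        have : a = b := h
        rw [this]
    obtain ⟨a, b, hθab, hab⟩ := hab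
    have hθxy : θ x y := hF x y a b hxy hab (hall a b) θ hθ hθab
    apply htop
    ext u v
    constructor
    · intro _; trivial
    · intro _; exact hall u v θ hθ hθxy

theorem preserves_line {f : E → E → E} (hf : ∀ θ ∈ F, Preserves f θ) :
    ∀ φ ∈ lines F, Preserves f φ := by
  rintro _ ⟨x, y, _, rfl⟩ a a' b b' h1 h2 θ hθ hxy
  exact hf θ hθ a a' b b' (h1 θ hθ hxy) (h2 θ hθ hxy)

/-- The ring of additive maps preserving all members of a translation invariant family. -/
def kernelRing [AddCommGroup E] (G : Set (Setoid E))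
    (hG : ∀ θ ∈ G, ∀ x y z, θ x y → θ (x + z) (y + z)) : Subring (AddMonoid.End E) where
  carrier := {a | ∀ θ ∈ G, ∀ x y, θ x y → θ (a x) (a y)}
  one_mem' := fun _ _ _ _ h => h
  zero_mem' := fun θ _ _ _ _ => θ.refl _
  mul_mem' := fun {_ _} ha hb θ hθ x y h => ha θ hθ _ _ (hb θ hθ _ _ h)
  add_mem' := by
    intro a b ha hb θ hθ x y h
    have h1 := hG θ hθ _ _ (b x) (ha θ hθ x y h)
    have h2 := hG θ hθ _ _ (a y) (hb θ hθ x y h)
    rw [add_comm (b x), add_comm (b y)] at h2
    exact θ.trans h1 h2
  neg_mem' := by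
    intro a ha θ hθ x y h
    have h1 := hG θ hθ _ _ (- a x - a y) (ha θ hθ x y h)
    have e1 : a x + (- a x - a y) = - a y := by abel
    have e2 : a y + (- a x - a y) = - a x := by abel
    rw [e1, e2] at h1
    exact θ.symm h1

theorem exists_field [Finite E] [Nontrivial E] (h : LinSp F) (A : AddCommGroup E) (l : E →+ E)
    (hl0 : l ≠ 0) (hl1 : l ≠ AddMonoidHom.id E)
    (hinv : ∀ θ ∈ F, (∀ x y z, θ x y → θ (x + z) (y + z)) ∧ ∀ x y, θ x y → θ (l x) (l y)) :
    ∃ (K : Type u) (_ : Field K) (_ : Module K E), (∃ a : K, a ≠ 0 ∧ a ≠ 1) ∧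
      ∀ θ ∈ F, ∀ (a : K) (x y : E), θ x y → θ (a • x) (a • y) := by
  classical
  let R := kernelRing F (fun θ hθ => (hinv θ hθ).1)
  have hinj : ∀ a : R, a ≠ 0 → Function.Injective (fun x : E => (a : AddMonoid.End E) x) := by
    intro a ha
    refine h.injective (fun θ hθ x y hxy => a.2 θ hθ x y hxy) ?_
    rintro ⟨c, hc⟩
    apply ha
    have h0 : c = 0 := by rw [← hc 0, map_zero]
    subst h0
    apply Subtype.ext
    ext x
    exact hc x
  have : Finite R := by
    have : Function.Injective (fun a : R => ((a : AddMonoid.End E) : E → E)) := by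
      intro a b hab
      apply Subtype.ext
      ext x
      exact congrFun hab x
    exact Finite.of_injective _ this
  have : Nontrivial R := by
    refine ⟨⟨0, 1, ?_⟩⟩
    intro h01
    obtain ⟨x, hx⟩ := exists_ne (0 : E)
    apply hx
    have h1 := congrArg (fun a : R => (a : AddMonoid.End E) x) h01
    exact h1.symm
  have : NoZeroDivisors R := by
    refine ⟨fun {a b} hab => ?_⟩
    by_contra hc
    push Not at hc
    obtain ⟨x, hx⟩ := exists_ne (0 : E)
    apply hx
    have h1 := congrArg (fun a : R => (a : AddMonoid.End E) x) hab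
    have h2 : (a : AddMonoid.End E) ((b : AddMonoid.End E) x) = 0 := h1
    have h3 : (b : AddMonoid.End E) x = 0 := by
      apply hinj a hc.1
      show (a : AddMonoid.End E) ((b : AddMonoid.End E) x) = (a : AddMonoid.End E) 0
      rw [h2, map_zero]
    apply hinj b hc.2
    show (b : AddMonoid.End E) x = (b : AddMonoid.End E) 0
    rw [h3, map_zero]
  have : IsDomain R := NoZeroDivisors.to_isDomain R
  have hfield : IsField R := Finite.isDomain_to_isField R
  let inst : Field R := hfield.toField
  refine ⟨R, inst, (inferInstance : Module R E), ⟨⟨l, fun θ hθ => (hinv θ hθ).2⟩, ?_, ?_⟩, ?_⟩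
  · intro h0
    apply hl0
    exact congrArg Subtype.val h0
  · intro h0
    apply hl1
    exact congrArg Subtype.val h0
  · intro θ hθ a x y hxy
    exact a.2 θ hθ x y hxy

theorem not_P_of_linear [Nontrivial E] (hL : LinearOverBigField F) : ¬ PropertyP F := by
  obtain ⟨K, _, _, _, ⟨a, ha0, ha1⟩, hsub⟩ := hL
  intro hP
  obtain ⟨v, hv⟩ := exists_ne (0 : E)
  have hpres : ∀ θ ∈ F, Preserves (fun x y => x + a • (y - x)) θ := by
    intro θ hθ x x' y y' hx hy
    obtain ⟨H, hH⟩ := hsub θ hθ
    rw [hH] at hx hy ⊢
    have e : x + a • (y - x) - (x' + a • (y' - x')) = (x - x') + a • ((y - y') - (x - x')) := by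
      module
    rw [e]
    exact H.add_mem hx (H.smul_mem a (H.sub_mem hy hx))
  rcases hP (fun x y => x + a • (y - x)) (fun x => by simp) hpres with h | h
  · have h1 := h 0 v
    simp only [sub_zero, zero_add] at h1
    rcases smul_eq_zero.1 h1 with h2 | h2
    · exact ha0 h2
    · exact hv h2
  · have h1 := h 0 v
    simp only [sub_zero, zero_add] at h1
    have h2 : (a - 1) • v = 0 := by rw [sub_smul, h1, one_smul, sub_self]
    rcases smul_eq_zero.1 h2 with h3 | h3
    · exact ha1 (sub_eq_zero.1 h3)
    · exact hv h3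

theorem not_P_of_trivial [Nontrivial E] (hT : ∀ θ ∈ F, θ = ⊥ ∨ θ = ⊤) : ¬ PropertyP F := by
  classical
  obtain ⟨a, b, hab⟩ := exists_pair_ne E
  intro hP
  have hidem : ∀ x, (fun x y => if x = a ∨ y = a then a else x) x x = x := by
    intro x
    by_cases hx : x = a
    · simp [hx]
    · simp [hx]
  have hpres : ∀ θ ∈ F, Preserves (fun x y => if x = a ∨ y = a then a else x) θ := by
    intro θ hθ x x' y y' hx hy
    rcases hT θ hθ with rfl | rfl
    · have e1 : x = x' := hx
      have e2 : y = y' := hy
      subst e1; subst e2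
      exact (⊥ : Setoid E).refl _
    · trivial
  rcases hP (fun x y => if x = a ∨ y = a then a else x) hidem hpres with h | h
  · have := h b a
    simp only [or_true, if_true] at this
    exact hab this
  · have := h a b
    simp only [true_or, if_true] at this
    exact hab this

/-- Classification of property (P) for families with the exchange property. -/
theorem exchange_iff [Finite E] [Nontrivial E] (F : Set (Setoid E)) (hF : Exchange F) :
    PropertyP F ↔ (∃ θ ∈ F, θ ≠ ⊥ ∧ θ ≠ ⊤) ∧ ¬ LinearOverBigField F := by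
  constructor
  · intro hP
    refine ⟨?_, fun hL => not_P_of_linear hL hP⟩
    by_contra hc
    push Not at hc
    refine not_P_of_trivial (F := F) (fun θ hθ => ?_) hP
    by_cases hb : θ = ⊥
    · exact Or.inl hb
    · exact Or.inr (hc θ hθ hb)
  · rintro ⟨hne, hL⟩ f hid hf
    by_contra hcon
    push Not at hcon
    obtain ⟨h1, h2⟩ := hcon
    apply hL
    have hLS := linSp_lines hF hne
    obtain ⟨A, l, hl0, hl1, hinv⟩ := exists_structure hLS hid (preserves_line hf)
      (by push Not; exact h1) (by push Not; exact h2)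
    obtain ⟨K, iK, iM, hbig, hK⟩ := exists_field hLS A l hl0 hl1 hinv
    refine ⟨K, iK, A, iM, hbig, fun θ hθ => ?_⟩
    -- invariance of the members of `F`
    have htr : ∀ x y z, θ x y → θ (x + z) (y + z) := by
      intro x y z hxy
      by_cases hne : x = y
      · subst hne; exact θ.refl _
      exact (hinv (line F x y) ⟨x, y, hne, rfl⟩).1 x y z (line_self x y) θ hθ hxy
    have hsm : ∀ (a : K) x y, θ x y → θ (a • x) (a • y) := by
      intro a x y hxy
      by_cases hne : x = y
      · subst hne; exact θ.refl _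
      exact hK (line F x y) ⟨x, y, hne, rfl⟩ a x y (line_self x y) θ hθ hxy
    refine ⟨{ carrier := {v | θ v 0}, add_mem' := ?_, zero_mem' := θ.refl 0, smul_mem' := ?_ }, ?_⟩
    · intro a b ha hb
      have h3 := htr a 0 b ha
      rw [zero_add] at h3
      exact θ.trans h3 hb
    · intro c x hx
      have h3 := hsm c x 0 hx
      rw [smul_zero] at h3
      exact h3
    · intro x y
      constructor
      · intro hxy
        have h3 := htr x y (-y) hxy
        rw [add_neg_cancel, ← sub_eq_add_neg] at h3
        exact h3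
      · intro hxy
        have h3 : θ (x - y) 0 := hxy
        have h4 := htr _ _ y h3
        rwa [sub_add_cancel, zero_add] at h4

end Pool.Agent.Helper96.Idem
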