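import Mathlib
import Pool.Agent.Helper70.IdemDefs

/-!
The three equivalence relations of the 3-net of a loop.
-/

namespace Pool.Agent.Helper96.Idem

open Pool.Agent.Helper70.IdemDefs

universe u

/-- A loop: a unital magma whose left and right multiplications are bijective. -/
def IsLoop (Q : Type u) [MulOneClass Q] : Prop :=
  (∀ a : Q, Function.Bijective fun x : Q => a * x) ∧ ∀ a : Q, Function.Bijective fun x : Q => x * a

/-- The three relations on `Q × Q`: same first coordinate, same second coordinate, same product. -/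
def net (Q : Type u) [Mul Q] : Set (Setoid (Q × Q)) :=
  {Setoid.ker fun p : Q × Q => p.1, Setoid.ker fun p : Q × Q => p.2,
    Setoid.ker fun p : Q × Q => p.1 * p.2}

/-- `Q` is not the direct product of two nontrivial loops. -/
def Indecomposable (Q : Type u) [MulOneClass Q] : Prop :=
  ∀ (A B : Type u) [MulOneClass A] [MulOneClass B], IsLoop A → IsLoop B →
    Nonempty (Q ≃* A × B) → Subsingleton A ∨ Subsingleton B

/-- The trivial homomorphism is the only homomorphism from `Q` to `Q` with central values. -/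
def NoCentralHom (Q : Type u) [MulOneClass Q] : Prop :=
  ∀ h : Q →* Q, (∀ x, h x ∈ Set.center Q) → ∀ x, h x = 1

variable {Q : Type u} [MulOneClass Q]

/-- Idempotent homomorphisms `Q × Q → Q` in curried form. -/
structure IdHom (γ : Q → Q → Q) : Prop where
  idem : ∀ x, γ x x = x
  mul : ∀ x x' y y', γ (x * y) (x' * y') = γ x x' * γ y y'

/-- Every idempotent homomorphism is a projection. -/
def OnlyProj (Q : Type u) [MulOneClass Q] : Prop :=
  ∀ γ : Q → Q → Q, IdHom γ → (∀ x y, γ x y = x) ∨ (∀ x y, γ x y = y)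

theorem net_iff : PropertyP (net Q) ↔ OnlyProj Q := by
  constructor
  · intro hP γ hγ
    have hid : ∀ p : Q × Q, (fun p q : Q × Q => (γ p.1 q.1, γ p.2 q.2)) p p = p := by
      rintro ⟨x, y⟩
      simp [hγ.idem]
    have hpres : ∀ θ ∈ net Q, Preserves (fun p q : Q × Q => (γ p.1 q.1, γ p.2 q.2)) θ := by
      rintro θ (rfl | rfl | rfl) x x' y y' hx hy
      · have h1 : x.1 = x'.1 := hx
        have h2 : y.1 = y'.1 := hy
        show γ x.1 y.1 = γ x'.1 y'.1
        rw [h1, h2]
      · have h1 : x.2 = x'.2 := hx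
        have h2 : y.2 = y'.2 := hy
        show γ x.2 y.2 = γ x'.2 y'.2
        rw [h1, h2]
      · have h1 : x.1 * x.2 = x'.1 * x'.2 := hx
        have h2 : y.1 * y.2 = y'.1 * y'.2 := hy
        show γ x.1 y.1 * γ x.2 y.2 = γ x'.1 y'.1 * γ x'.2 y'.2
        rw [← hγ.mul, ← hγ.mul, h1, h2]
    rcases hP _ hid hpres with h | h
    · left
      intro x y
      exact congrArg Prod.fst (h (x, x) (y, y))
    · right
      intro x y
      exact congrArg Prod.fst (h (x, x) (y, y))
  · intro hQ f hid hpres
    have p1 := hpres (Setoid.ker fun p : Q × Q => p.1) (Or.inl rfl)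
    have p2 := hpres (Setoid.ker fun p : Q × Q => p.2) (Or.inr (Or.inl rfl))
    have p3 := hpres (Setoid.ker fun p : Q × Q => p.1 * p.2) (Or.inr (Or.inr rfl))
    have e1 : ∀ p q : Q × Q, (f p q).1 = (f (p.1, 1) (q.1, 1)).1 :=
      fun p q => p1 p (p.1, 1) q (q.1, 1) rfl rfl
    have e2 : ∀ p q : Q × Q, (f p q).2 = (f (1, p.2) (1, q.2)).2 :=
      fun p q => p2 p (1, p.2) q (1, q.2) rfl rfl
    have e3 : ∀ p q : Q × Q, (f p q).1 * (f p q).2 =
        (f (p.1 * p.2, 1) (q.1 * q.2, 1)).1 * (f (p.1 * p.2, 1) (q.1 * q.2, 1)).2 := by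
      intro p q
      refine p3 p (p.1 * p.2, 1) q (q.1 * q.2, 1) ?_ ?_
      · show p.1 * p.2 = p.1 * p.2 * 1
        rw [mul_one]
      · show q.1 * q.2 = q.1 * q.2 * 1
        rw [mul_one]
    have e4 : ∀ p q : Q × Q, (f p q).1 * (f p q).2 =
        (f (1, p.1 * p.2) (1, q.1 * q.2)).1 * (f (1, p.1 * p.2) (1, q.1 * q.2)).2 := by
      intro p q
      refine p3 p (1, p.1 * p.2) q (1, q.1 * q.2) ?_ ?_
      · show p.1 * p.2 = 1 * (p.1 * p.2)
        rw [one_mul]
      · show q.1 * q.2 = 1 * (q.1 * q.2)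
        rw [one_mul]
    have h11 : f (1, 1) (1, 1) = (1, 1) := hid _
    have s2 : ∀ z z' : Q, (f (z, 1) (z', 1)).2 = 1 := by
      intro z z'
      rw [e2]; rw [h11]
    have s1 : ∀ z z' : Q, (f (1, z) (1, z')).1 = 1 := by
      intro z z'
      rw [e1]; rw [h11]
    -- `f (1, z) (1, z')` and `f (z, 1) (z', 1)` have the same product
    have hαβ : ∀ z z' : Q, (f (1, z) (1, z')).2 = (f (z, 1) (z', 1)).1 := by
      intro z z'
      have h3 := e4 (z, 1) (z', 1)
      simp only [mul_one] at h3
      rw [s2, s1, mul_one, one_mul] at h3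
      exact h3.symm
    have hf : ∀ p q : Q × Q, f p q = ((f (p.1, 1) (q.1, 1)).1, (f (p.2, 1) (q.2, 1)).1) := by
      intro p q
      apply Prod.ext
      · exact e1 p q
      · rw [e2 p q, hαβ]
    have hγ : IdHom (fun x y : Q => (f (x, 1) (y, 1)).1) := by
      refine ⟨fun x => ?_, fun x x' y y' => ?_⟩
      · show (f (x, 1) (x, 1)).1 = x
        rw [hid]
      · show (f (x * y, 1) (x' * y', 1)).1 = (f (x, 1) (x', 1)).1 * (f (y, 1) (y', 1)).1
        have h3 := e3 (x, y) (x', y')
        rw [hf (x, y) (x', y')] at h3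
        simp only at h3
        rw [s2, mul_one] at h3
        exact h3.symm
    rcases hQ _ hγ with h | h
    · left
      intro p q
      rw [hf p q]
      exact Prod.ext (h p.1 q.1) (h p.2 q.2)
    · right
      intro p q
      rw [hf p q]
      exact Prod.ext (h p.1 q.1) (h p.2 q.2)

/-- The medial law with two central elements. -/
theorem medial {a b c d : Q} (hc : c ∈ Set.center Q)
    (hd : d ∈ Set.center Q) : (a * b) * (c * d) = (a * c) * (b * d) := by
  rw [← hd.right_assoc (a * b) c, hc.right_comm a b, hd.right_assoc]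

section Loop

variable (hQ : IsLoop Q)

include hQ

theorem lcancel {a x y : Q} (h : a * x = a * y) : x = y := (hQ.1 a).1 h

theorem rcancel {a x y : Q} (h : x * a = y * a) : x = y := (hQ.2 a).1 h

omit hQ in
theorem onlyProj_indec (hP : OnlyProj Q) : Indecomposable Q := by
  intro A B _ _ hA hB ⟨e⟩
  have hγ : IdHom (fun x y : Q => e.symm ((e x).1, (e y).2)) := by
    refine ⟨fun x => ?_, fun x x' y y' => ?_⟩
    · simp
    · show e.symm ((e (x * y)).1, (e (x' * y')).2) =
        e.symm ((e x).1, (e x').2) * e.symm ((e y).1, (e y').2)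
      rw [← map_mul, map_mul, map_mul]
      rfl
  rcases hP _ hγ with h | h
  · right
    refine ⟨fun b b' => ?_⟩
    have h3 := congrArg e (h (e.symm (1, b)) (e.symm (1, b')))
    simp only [MulEquiv.apply_symm_apply] at h3
    exact (congrArg Prod.snd h3).symm
  · left
    refine ⟨fun b b' => ?_⟩
    have h3 := congrArg e (h (e.symm (b, 1)) (e.symm (b', 1)))
    simp only [MulEquiv.apply_symm_apply] at h3
    exact congrArg Prod.fst h3

theorem central_hom (hP : OnlyProj Q) (h : Q →* Q) (hc : ∀ x, h x ∈ Set.center Q)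
    (hne : ¬ ∀ x, h x = 1) : ∀ x, h x = x := by
  choose r hr using fun x : Q => (hQ.2 (h x)).2 x
  have hr' : ∀ x, r x * h x = x := hr
  have hrm : ∀ x y, r (x * y) = r x * r y := by
    intro x y
    apply rcancel hQ (a := h (x * y))
    rw [hr', map_mul, medial (hc x) (hc y), hr', hr']
  have hγ : IdHom (fun x y : Q => r x * h y) := by
    refine ⟨hr', fun x x' y y' => ?_⟩
    show r (x * y) * h (x' * y') = (r x * h x') * (r y * h y')
    rw [hrm, map_mul, medial (hc x') (hc y')]
  rcases hP _ hγ with h1 | h1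
  · exfalso
    apply hne
    intro y
    have h2 : r 1 * h y = 1 := h1 1 y
    have h3 := hr' 1
    rw [map_one, mul_one] at h3
    rwa [h3, one_mul] at h2
  · intro x
    have h2 : r x * h 1 = 1 := h1 x 1
    rw [map_one, mul_one] at h2
    have h3 := hr' x
    rwa [h2, one_mul] at h3

theorem onlyProj_card (hP : OnlyProj Q) (hnc : ¬ NoCentralHom Q) : Nat.card Q = 2 := by
  classical
  unfold NoCentralHom at hnc
  push Not at hnc
  obtain ⟨h, hc, x₀, hx₀⟩ := hnc
  have hid := central_hom hQ hP h hc (fun h1 => hx₀ (h1 x₀))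
  rw [hid] at hx₀
  have hcen : ∀ x : Q, x ∈ Set.center Q := fun x => by rw [← hid x]; exact hc x
  have hassoc : ∀ x y z : Q, x * y * z = x * (y * z) := fun x y z => (hcen z).right_assoc x y
  have hcomm : ∀ x y : Q, x * y = y * x := fun x y => ((hcen x).comm y).eq
  -- squaring
  let s : Q →* Q :=
    { toFun := fun x => x * x
      map_one' := mul_one 1
      map_mul' := fun x y => by
        have h1 : x * y * (x * y) = x * x * (y * y) := medial (hcen x) (hcen y)
        exact h1 }
  have hs : ∀ x : Q, x * x = 1 := by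
    by_contra hcon
    have h2 := central_hom hQ hP s (fun x => hcen _) hcon x₀
    apply hx₀
    have h3 : x₀ * x₀ = x₀ * 1 := by rw [mul_one]; exact h2
    exact lcancel hQ h3
  let N : Neg (Additive Q) := ⟨fun a => a⟩
  let G0 : AddGroup (Additive Q) := AddGroup.ofLeftAxioms
    (fun a b c => hassoc a.toMul b.toMul c.toMul) (fun a => one_mul a.toMul)
    (fun a => hs a.toMul)
  let G : AddCommGroup (Additive Q) :=
    { G0 with add_comm := fun a b => hcomm a.toMul b.toMul }
  have hadd : ∀ a b : Additive Q, a + b = Additive.ofMul (a.toMul * b.toMul) := fun _ _ => rfl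
  let M : Module (ZMod 2) (Additive Q) := AddCommGroup.zmodModule (n := 2) (fun x => by
    rw [two_nsmul, hadd]
    exact hs x.toMul)
  have hx0' : Additive.ofMul x₀ ≠ (0 : Additive Q) := hx₀
  obtain ⟨φ, hφ⟩ := Module.Projective.exists_dual_eq_one (ZMod 2) hx0'
  let t : Q →* Q :=
    { toFun := fun x => if φ (Additive.ofMul x) = 0 then 1 else x₀
      map_one' := by
        have : φ (Additive.ofMul (1 : Q)) = 0 := φ.map_zero
        rw [if_pos this]
      map_mul' := fun x y => by
        have h3 : φ (Additive.ofMul (x * y)) = φ (Additive.ofMul x) + φ (Additive.ofMul y) :=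
          φ.map_add _ _
        have h4 : ∀ c : ZMod 2, c = 0 ∨ c = 1 := by decide
        have h5 : (1 : ZMod 2) + 1 = 0 := by decide
        have h6 : (1 : ZMod 2) ≠ 0 := by decide
        rw [h3]
        rcases h4 (φ (Additive.ofMul x)) with h1 | h1 <;>
          rcases h4 (φ (Additive.ofMul y)) with h2 | h2 <;>
          rw [h1, h2] <;> simp [h5, h6, hs] }
  have ht : ∀ x, t x = if φ (Additive.ofMul x) = 0 then 1 else x₀ := fun _ => rfl
  have htx : t x₀ = x₀ := by
    rw [ht, if_neg]
    rw [hφ]; decide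
  have hid2 := central_hom hQ hP t (fun x => hcen _) (fun h1 => hx₀ (by rw [← htx]; exact h1 x₀))
  have hall : ∀ x : Q, x = 1 ∨ x = x₀ := by
    intro x
    rw [← hid2 x, ht]
    split_ifs
    · left; rfl
    · right; rfl
  rw [Nat.card_eq_two_iff]
  refine ⟨1, x₀, Ne.symm hx₀, ?_⟩
  ext x
  simp only [Set.mem_insert_iff, Set.mem_singleton_iff, Set.mem_univ, iff_true]
  exact hall x

theorem card_onlyProj (hcard : Nat.card Q = 2) : OnlyProj Q := by
  rw [Nat.card_eq_two_iff' (1 : Q)] at hcard
  obtain ⟨u, hu, huniq⟩ := hcard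
  have hall : ∀ x : Q, x = 1 ∨ x = u := by
    intro x
    by_cases hx : x = 1
    · exact Or.inl hx
    · exact Or.inr (huniq x hx)
  intro γ hγ
  have h0 : γ u 1 * γ 1 u = u := by
    rw [← hγ.mul, mul_one, one_mul, hγ.idem]
  rcases hall (γ u 1) with h1 | h1
  · right
    rw [h1, one_mul] at h0
    intro x y
    rcases hall x with rfl | rfl <;> rcases hall y with rfl | rfl
    · exact hγ.idem _
    · exact h0
    · exact h1
    · exact hγ.idem _
  · left
    rw [h1] at h0
    have h2 : γ 1 u = 1 := by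
      apply lcancel hQ (a := u)
      rw [h0, mul_one]
    intro x y
    rcases hall x with rfl | rfl <;> rcases hall y with rfl | rfl
    · exact hγ.idem _
    · exact h2
    · exact h1
    · exact hγ.idem _

omit hQ in
/-- Elements in both images are central. -/
theorem central_of_both {γ : Q → Q → Q} (hγ : IdHom γ) {s t z : Q} (hs : γ s 1 = z)
    (ht : γ 1 t = z) : z ∈ Set.center Q := by
  have e0 : ∀ x y, γ x y = γ x 1 * γ 1 y := by
    intro x y
    rw [← hγ.mul, mul_one, one_mul]
  have e1 : ∀ x y, z * γ x y = γ (s * x) y := by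
    intro x y
    rw [← hs, ← hγ.mul, one_mul]
  have e2 : ∀ x y, z * γ x y = γ x (t * y) := by
    intro x y
    rw [← ht, ← hγ.mul, one_mul]
  have e3 : ∀ x y, γ x y * z = γ (x * s) y := by
    intro x y
    rw [← hs, ← hγ.mul, mul_one]
  have e4 : ∀ x y, γ x y * z = γ x (y * t) := by
    intro x y
    rw [← ht, ← hγ.mul, mul_one]
  have l1 : ∀ x, z * x = γ (s * x) x := by
    intro x
    have := e1 x x
    rwa [hγ.idem] at this
  have l2 : ∀ x, x * z = γ (x * s) x := by
    intro x
    have := e3 x x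
    rwa [hγ.idem] at this
  have f1 : ∀ x, γ (s * x) 1 = γ x t := by
    intro x
    rw [← e1, e2, mul_one]
  have f2 : ∀ x, γ (x * s) 1 = γ x t := by
    intro x
    rw [← e3, e4, one_mul]
  refine ⟨fun x => ?_, fun x y => ?_, fun x y => ?_⟩
  · show z * x = x * z
    rw [l1, l2, e0 (s * x), e0 (x * s), f1, f2]
  · have h1 : z * (x * y) = γ (x * y) t * γ 1 (x * y) := by
      rw [l1, e0, f1]
    have h2 : z * x * y = γ (x * y) t * γ 1 (x * y) := by
      have h3 : z * x * y = γ (s * x * y) (x * y) := by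
        rw [hγ.mul, hγ.idem, l1]
      have h4 : γ (s * x * y) 1 = γ (x * y) t := by
        have h5 : γ (s * x * y) 1 = γ (s * x) 1 * γ y 1 := by rw [← hγ.mul, mul_one]
        rw [h5, f1, ← hγ.mul, mul_one]
      rw [h3, e0, h4]
    rw [h1, h2]
  · have h1 : x * y * z = γ (x * y) t * γ 1 (x * y) := by
      rw [l2, e0, f2]
    have h2 : x * (y * z) = γ (x * y) t * γ 1 (x * y) := by
      have h3 : x * (y * z) = γ (x * (y * s)) (x * y) := by
        rw [hγ.mul, hγ.idem, l2]
      have h4 : γ (x * (y * s)) 1 = γ (x * y) t := by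
        have h5 : γ (x * (y * s)) 1 = γ x 1 * γ (y * s) 1 := by rw [← hγ.mul, mul_one]
        rw [h5, f2, ← hγ.mul, one_mul]
      rw [h3, e0, h4]
    rw [h1, h2]

theorem fixed_loop (a : Q →* Q) : IsLoop (MonoidHom.eqLocusM a (MonoidHom.id Q)) := by
  have hmem : ∀ x : Q, x ∈ MonoidHom.eqLocusM a (MonoidHom.id Q) ↔ a x = x := fun _ => Iff.rfl
  refine ⟨fun u => ⟨fun x y hxy => ?_, fun y => ?_⟩, fun u => ⟨fun x y hxy => ?_, fun y => ?_⟩⟩
  · apply Subtype.ext
    exact lcancel hQ (congrArg Subtype.val hxy)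
  · obtain ⟨x, hx⟩ := (hQ.1 (u : Q)).2 (y : Q)
    have hx' : (u : Q) * x = y := hx
    have hax : a x = x := by
      apply lcancel hQ (a := (u : Q))
      have h1 := congrArg a hx'
      rw [map_mul, (hmem _).1 u.2, (hmem _).1 y.2] at h1
      rw [h1, hx']
    exact ⟨⟨x, hax⟩, Subtype.ext hx'⟩
  · apply Subtype.ext
    exact rcancel hQ (congrArg Subtype.val hxy)
  · obtain ⟨x, hx⟩ := (hQ.2 (u : Q)).2 (y : Q)
    have hx' : x * (u : Q) = y := hx
    have hax : a x = x := by
      apply rcancel hQ (a := (u : Q))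
      have h1 := congrArg a hx'
      rw [map_mul, (hmem _).1 u.2, (hmem _).1 y.2] at h1
      rw [h1, hx']
    exact ⟨⟨x, hax⟩, Subtype.ext hx'⟩

theorem onlyProj_of (hi : Indecomposable Q) (hn : NoCentralHom Q) : OnlyProj Q := by
  intro γ hγ
  have e0 : ∀ x y, γ x y = γ x 1 * γ 1 y := by
    intro x y
    rw [← hγ.mul, mul_one, one_mul]
  let a : Q →* Q :=
    { toFun := fun x => γ x 1
      map_one' := hγ.idem 1
      map_mul' := fun x y => by
        show γ (x * y) 1 = γ x 1 * γ y 1
        rw [← hγ.mul, mul_one] }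
  let b : Q →* Q :=
    { toFun := fun x => γ 1 x
      map_one' := hγ.idem 1
      map_mul' := fun x y => by
        show γ 1 (x * y) = γ 1 x * γ 1 y
        rw [← hγ.mul, mul_one] }
  have ha : ∀ x, a x = γ x 1 := fun _ => rfl
  have hb : ∀ x, b x = γ 1 x := fun _ => rfl
  have hab : ∀ x, a x * b x = x := fun x => by rw [ha, hb, ← e0, hγ.idem]
  -- `a (b x) = b (a x)`
  have hcomm : ∀ x, a (b x) = b (a x) := by
    intro x
    have h1 : a (a x) * a (b x) = a x := by rw [← map_mul, hab]
    have h2 : a (a x) * b (a x) = a x := hab (a x)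
    exact lcancel hQ (h1.trans h2.symm)
  have hcen : ∀ x, (b.comp a) x ∈ Set.center Q := fun x =>
    central_of_both hγ (s := b x) (t := a x) (z := b (a x)) (hcomm x) rfl
  have hba : ∀ x, b (a x) = 1 := hn (b.comp a) hcen
  have hab1 : ∀ x, a (b x) = 1 := fun x => by rw [hcomm, hba]
  have haa : ∀ x, a (a x) = a x := by
    intro x
    have := hab (a x)
    rwa [hba, mul_one] at this
  have hbb : ∀ x, b (b x) = b x := by
    intro x
    have := hab (b x)
    rwa [hab1, one_mul] at this
  let A := MonoidHom.eqLocusM a (MonoidHom.id Q)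
  let B := MonoidHom.eqLocusM b (MonoidHom.id Q)
  have hA : ∀ x : A, a x = x := fun x => x.2
  have hB : ∀ x : B, b x = x := fun x => x.2
  let e : Q ≃* A × B :=
    { toFun := fun x => (⟨a x, haa x⟩, ⟨b x, hbb x⟩)
      invFun := fun p => (p.1 : Q) * (p.2 : Q)
      left_inv := fun x => hab x
      right_inv := by
        rintro ⟨u, v⟩
        have h1 : a (v : Q) = 1 := by rw [← hB v, hab1]
        have h2 : b (u : Q) = 1 := by rw [← hA u, hba]
        apply Prod.ext
        · apply Subtype.ext
          show a ((u : Q) * (v : Q)) = u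
          rw [map_mul, h1, hA, mul_one]
        · apply Subtype.ext
          show b ((u : Q) * (v : Q)) = v
          rw [map_mul, h2, hB, one_mul]
      map_mul' := by
        intro x y
        apply Prod.ext
        · apply Subtype.ext
          exact map_mul a x y
        · apply Subtype.ext
          exact map_mul b x y }
  rcases hi A B (fixed_loop hQ a) (fixed_loop hQ b) ⟨e⟩ with h | h
  · right
    have h1 : ∀ x, a x = 1 := by
      intro x
      have := congrArg Subtype.val (h.elim (⟨a x, haa x⟩ : A) 1)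
      exact this
    intro x y
    have h2 := hab y
    rw [h1, one_mul] at h2
    rw [e0, ← ha, ← hb, h1, one_mul, h2]
  · left
    have h1 : ∀ x, b x = 1 := by
      intro x
      have := congrArg Subtype.val (h.elim (⟨b x, hbb x⟩ : B) 1)
      exact this
    intro x y
    have h2 := hab x
    rw [h1, mul_one] at h2
    rw [e0, ← ha, ← hb, h1, mul_one, h2]

/-- Property (P) for the 3-net of a loop. -/
theorem net_P_iff : PropertyP (net Q) ↔
    Nat.card Q = 2 ∨ (Indecomposable Q ∧ NoCentralHom Q) := by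
  rw [net_iff]
  constructor
  · intro hP
    by_cases hn : NoCentralHom Q
    · exact Or.inr ⟨onlyProj_indec hP, hn⟩
    · exact Or.inl (onlyProj_card hQ hP hn)
  · rintro (h | ⟨h1, h2⟩)
    · exact card_onlyProj hQ h
    · exact onlyProj_of hQ h1 h2

end Loop

end Pool.Agent.Helper96.Idem
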