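import Mathlib
import Pool.Agent.Helper96.Idem.Exch
import Pool.Agent.Helper96.Idem.Net

/-!
Property (P) for families with the exchange property and for 3-nets of loops.
-/

namespace Pool.Agent.Helper96.Idem

open Pool.Agent.Helper70.IdemDefs

universe u

theorem final :
    (∀ (E : Type u) [Finite E] [Nontrivial E] (F : Set (Setoid E)), Exchange F →
      (PropertyP F ↔ (∃ θ ∈ F, θ ≠ ⊥ ∧ θ ≠ ⊤) ∧ ¬ LinearOverBigField F)) ∧
    (∀ (Q : Type u) [MulOneClass Q], IsLoop Q →
      (PropertyP (net Q) ↔ Nat.card Q = 2 ∨ (Indecomposable Q ∧ NoCentralHom Q))) :=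
  ⟨fun _ _ _ F hF => exchange_iff F hF, fun _ _ hQ => net_P_iff hQ⟩

end Pool.Agent.Helper96.Idem
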